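import Pool.Agent.H675R3.Final2

/-!
# Residual finiteness growth depends only on the complex Malcev completion

Main theorem: if two finitely generated torsion-free nilpotent groups have isomorphic complex Malcev
completions (that is, their rational Malcev Lie algebras become isomorphic over the complex
numbers), then their residual finiteness growth functions are equivalent.

The rational Malcev Lie algebra of `G` is the Lie algebra generated by the logarithms of the elements
of `G`, for a faithful representation of `G` by rational unitriangular matrices. The first part of the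
theorem says that it exists and is unique up to isomorphism for each finitely generated torsion-free
nilpotent group.
-/

set_option autoImplicit false

namespace Pool.Agent.Results.MP_67ef3c_al.ComplexMalcev

open scoped TensorProduct

attribute [local instance 100] LieRing.ofAssociativeRing

section defs
variable {G : Type} [Group G]

/-- The word length of `g` with respect to `S`: the least length of a product of elements of `S`
and inverses of elements of `S` which is equal to `g`. -/
noncomputable def wordLen (S : Set G) (g : G) : ℕ :=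
  sInf {m | ∃ l : List G, l.length = m ∧ (∀ x ∈ l, x ∈ S ∨ x⁻¹ ∈ S) ∧ l.prod = g}

/-- `D_G(g)`, the least index of a finite index normal subgroup not containing `g`. -/
noncomputable def depth (g : G) : ℕ :=
  sInf {m | ∃ N : Subgroup G, N.Normal ∧ N.FiniteIndex ∧ g ∉ N ∧ N.index = m}

/-- The residual finiteness growth: `RF_G(n)` is the maximum of `D_G(g)` over the `g ≠ 1` of word
length at most `n`. -/
noncomputable def RF (S : Set G) (n : ℕ) : ℕ :=
  sSup {m | ∃ g : G, g ≠ 1 ∧ wordLen S g ≤ n ∧ depth g = m}

end defs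

/-- `f ≼ h`: there is `C > 0` with `f n ≤ C * h (C * n)` for all `n`. -/
def Dominated (f h : ℕ → ℕ) : Prop := ∃ C : ℕ, 0 < C ∧ ∀ n, f n ≤ C * h (C * n)

/-- `f ≈ h`. -/
def Equivalent (f h : ℕ → ℕ) : Prop := Dominated f h ∧ Dominated h f

/-- Torsion-free groups. -/
def TorsionFree (G : Type) [Group G] : Prop := ∀ (g : G) (n : ℕ), 0 < n → g ^ n = 1 → g = 1

/-- Upper unitriangular rational matrices. -/
def IsUnitri {n : ℕ} (A : Matrix (Fin n) (Fin n) ℚ) : Prop :=
  (∀ i, A i i = 1) ∧ ∀ i j, j < i → A i j = 0

/-- The logarithm of a unitriangular matrix, a finite sum. -/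
noncomputable def matLog {n : ℕ} (A : Matrix (Fin n) (Fin n) ℚ) : Matrix (Fin n) (Fin n) ℚ :=
  ∑ m ∈ Finset.range n, ((-1 : ℚ) ^ m / (m + 1)) • (A - 1) ^ (m + 1)

/-- The rational Lie algebra generated by the logarithms of the elements of a group of rational
unitriangular matrices. -/
noncomputable def malcevLie {n : ℕ} {G : Type} [Group G] (ρ : G →* Matrix (Fin n) (Fin n) ℚ) :
    LieSubalgebra ℚ (Matrix (Fin n) (Fin n) ℚ) :=
  LieSubalgebra.lieSpan ℚ (Matrix (Fin n) (Fin n) ℚ) (Set.range fun g => matLog (ρ g))

/-- `L` is the rational Malcev Lie algebra of `G` (up to isomorphism): there is a faithful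
representation of `G` by rational unitriangular matrices such that `L` is isomorphic to the rational
Lie algebra generated by the logarithms of the elements of `G`. -/
def IsMalcevLie (G : Type) [Group G] (L : Type) [LieRing L] [LieAlgebra ℚ L] : Prop :=
  ∃ (n : ℕ) (ρ : G →* Matrix (Fin n) (Fin n) ℚ), Function.Injective ρ ∧ (∀ g, IsUnitri (ρ g)) ∧
    Nonempty (L ≃ₗ⁅ℚ⁆ malcevLie ρ)

/-- Every finitely generated torsion-free nilpotent group has a rational Malcev Lie algebra, unique
up to isomorphism; and two finitely generated torsion-free nilpotent groups whose rational Malcev Lie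
algebras become isomorphic over the complex numbers have equivalent residual finiteness growth. -/
theorem result :
    (∀ (G : Type) [Group G], Group.FG G → Group.IsNilpotent G → TorsionFree G →
      ∃ (L : Type) (_ : LieRing L) (_ : LieAlgebra ℚ L), IsMalcevLie G L ∧
        ∀ (L' : Type) [LieRing L'] [LieAlgebra ℚ L'], IsMalcevLie G L' → Nonempty (L ≃ₗ⁅ℚ⁆ L')) ∧
    (∀ (G₁ G₂ : Type) [Group G₁] [Group G₂],
      Group.FG G₁ → Group.IsNilpotent G₁ → TorsionFree G₁ →
      Group.FG G₂ → Group.IsNilpotent G₂ → TorsionFree G₂ →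
      ∀ (L₁ L₂ : Type) [LieRing L₁] [LieAlgebra ℚ L₁] [LieRing L₂] [LieAlgebra ℚ L₂],
        IsMalcevLie G₁ L₁ → IsMalcevLie G₂ L₂ → Nonempty ((ℂ ⊗[ℚ] L₁) ≃ₗ⁅ℂ⁆ (ℂ ⊗[ℚ] L₂)) →
        ∀ (S₁ : Set G₁) (S₂ : Set G₂), S₁.Finite → Subgroup.closure S₁ = ⊤ →
          S₂.Finite → Subgroup.closure S₂ = ⊤ → Equivalent (RF S₁) (RF S₂)) :=
  ⟨fun G _ hfg hnil htf => Pool.Agent.H675R3.malcev_exists G hfg hnil htf,
    fun _ _ _ _ _ _ _ _ _ _ _ _ _ _ _ _ h₁ h₂ e S₁ S₂ hS₁ hgen₁ hS₂ hgen₂ =>
      Pool.Agent.H675R3.main' h₁ h₂ e S₁ hS₁ hgen₁ S₂ hS₂ hgen₂⟩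

end Pool.Agent.Results.MP_67ef3c_al.ComplexMalcev
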